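import Pool.Agent.FS.MidRange6c7.Mixed

/-! One two-sided estimate of `h n m` for all `1 ≤ m ≤ n!`. -/

namespace Pool.Agent.FS.MidRange6c7

open Finset Filter Topology Pool.Agent.Lib.MP_6c7e5c_co

lemma inv_le_log {k : ℕ} (hk : 1 ≤ k) : 1 ≤ ((k : ℝ) + 1) * Real.log (((k : ℝ) + 1) / k) := by
  have k0 : (0 : ℝ) < k := by exact_mod_cast hk
  have h1 := Real.one_sub_inv_le_log_of_pos (show 0 < ((k : ℝ) + 1) / k by positivity)
  have h2 : 1 - (((k : ℝ) + 1) / k)⁻¹ = 1 / (k + 1) := by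
    field_simp
    ring
  rw [h2, div_le_iff₀ (by positivity)] at h1
  linarith

lemma log_lower {n m k : ℕ} (hn : 1 ≤ n) (hm : 1 ≤ m) (hmn : m ≤ n.factorial) (hk : 1 ≤ k) :
    Real.log m + k * n * Real.log (((k : ℝ) + 1) / k) ≤
      n * Real.log k + h n m * Real.log (((k : ℝ) + 1) / k) := by
  have k0 : (0 : ℝ) < k := by exact_mod_cast hk
  have m0 : (0 : ℝ) < m := by exact_mod_cast hm
  obtain ⟨w, hw1, hw2⟩ := (upper hn hm hmn).1
  have a1 := count_le_geom hk w
  have a2 : (m : ℝ) ≤ permCount n w := by exact_mod_cast hw2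
  have a3 : (m : ℝ) * (((k : ℝ) + 1) / k) ^ (k * n) ≤
      (k : ℝ) ^ n * (((k : ℝ) + 1) / k) ^ w.length := le_trans (by gcongr) a1
  have a4 := Real.log_le_log (by positivity) a3
  rw [Real.log_mul (by positivity) (by positivity), Real.log_mul (by positivity) (by positivity),
    Real.log_pow, Real.log_pow, Real.log_pow, hw1] at a4
  push_cast at a4
  exact a4

lemma log_upper {n m k t : ℕ} (hm : 1 ≤ m) (hk : 1 ≤ k) (hkn : k < n) (ht : t ≤ n)
    (b5 : Real.log m + (k + 1) ≤ n * Real.log k + t * Real.log (((k : ℝ) + 1) / k)) :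
    (h n m : ℝ) ≤ k * n + t := by
  have k0 : (0 : ℝ) < k := by exact_mod_cast hk
  have m0 : (0 : ℝ) < m := by exact_mod_cast hm
  have b6 : (m : ℝ) * Real.exp (k + 1) ≤ (k + 1) ^ t * k ^ (n - t) := by
    have d1 := Real.exp_le_exp.2 b5
    rw [Real.exp_add, Real.exp_log m0, Real.exp_add (n * _), Real.exp_nat_mul,
      Real.exp_nat_mul, Real.exp_log k0, Real.exp_log (by positivity)] at d1
    refine d1.trans (le_of_eq ?_)
    obtain ⟨s, hs⟩ := Nat.exists_eq_add_of_le ht
    rw [hs, Nat.add_sub_cancel_left, div_pow, pow_add]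
    field_simp
  exact_mod_cast h_le_of_le hk hkn ht b6

theorem two_sided {n m : ℕ} (hn : 1 ≤ n) (hm : 1 ≤ m) (hmn : m ≤ n.factorial) (x : ℝ)
    (hx : x = (m : ℝ) ^ (1 / (n : ℝ))) :
    n * (⌊x⌋₊ + Real.log (x / ⌊x⌋₊) / Real.log (1 + 1 / ⌊x⌋₊)) ≤ h n m ∧
    (h n m : ℝ) ≤ n * (⌊x⌋₊ + Real.log (x / ⌊x⌋₊) / Real.log (1 + 1 / ⌊x⌋₊)) +
      (18 + Real.exp 1 * Real.exp (Real.exp 1)) * x ^ 2 := by
  have n0 : (0 : ℝ) < n := by exact_mod_cast hn
  have m1 : (1 : ℝ) ≤ m := by exact_mod_cast hm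
  have x1 : 1 ≤ x := hx ▸ Real.one_le_rpow m1 (by positivity)
  have xn : x ≤ n := by
    refine le_of_pow_le_pow_left₀ (n := n) (by omega) n0.le ?_
    rw [hx, root_pow hn]
    exact_mod_cast hmn.trans (Nat.factorial_le_pow n)
  have lm : Real.log m = n * Real.log x := by
    rw [hx, Real.log_rpow (by linarith)]
    field_simp
  have hb := h_le hn hm hmn
  rw [← hx] at hb
  have hk : 1 ≤ ⌊x⌋₊ := Nat.le_floor (by exact_mod_cast x1)
  have c1 : (⌊x⌋₊ : ℝ) ≤ x := Nat.floor_le (by linarith)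
  have c2 : x < ⌊x⌋₊ + 1 := Nat.lt_floor_add_one x
  generalize ⌊x⌋₊ = k at hk c1 c2
  have k0 : (0 : ℝ) < k := by exact_mod_cast hk
  have er : (1 : ℝ) + 1 / k = (k + 1) / k := by field_simp
  rw [er, Real.log_div (by linarith) k0.ne']
  have low := log_lower hn hm hmn hk
  have up := fun t => log_upper (n := n) (m := m) (k := k) (t := t) hm hk
  have il := inv_le_log hk
  have l0 : 0 < Real.log (((k : ℝ) + 1) / k) := by
    refine Real.log_pos ?_
    rw [lt_div_iff₀ k0]
    linarith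
  have lk : Real.log k ≤ Real.log x := Real.log_le_log k0 c1
  generalize Real.log (((k : ℝ) + 1) / k) = L at low up il l0
  obtain ⟨θ, hθ⟩ : ∃ θ, θ = (Real.log x - Real.log k) / L := ⟨_, rfl⟩
  have th0 : 0 ≤ θ := hθ ▸ div_nonneg (by linarith) l0.le
  have th1 : θ * L = Real.log x - Real.log k := by
    rw [hθ]
    field_simp
  rw [← hθ]
  have E0 : 0 < Real.exp 1 * Real.exp (Real.exp 1) := by positivity
  refine ⟨le_of_mul_le_mul_right ?_ l0, ?_⟩
  · calc n * (k + θ) * L = k * n * L + n * (θ * L) := by ring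
      _ ≤ _ := by
        rw [th1]
        linarith
  rcases le_or_gt ((k + 2) ^ 2) n with c | c
  · have b0 : 0 ≤ n * θ := by positivity
    have b1 := Nat.le_ceil (n * θ)
    have b2 := Nat.ceil_lt_add_one b0
    generalize ⌈n * θ⌉₊ = s at b1 b2
    have q1 : ((k : ℝ) + 1) ^ 2 ≤ 4 * x ^ 2 := by nlinarith
    have q2 : ((k : ℝ) + 2) ^ 2 ≤ 9 * x ^ 2 := by nlinarith
    have q3 : 1 ≤ x ^ 2 := by nlinarith
    have q4 : 0 ≤ Real.exp 1 * Real.exp (Real.exp 1) * x ^ 2 := by positivity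
    rcases le_or_gt (s + (k + 1) ^ 2) n with d | d
    · have := up (s + (k + 1) ^ 2) (by nlinarith) d (by
        push_cast
        have d1 : n * θ * L ≤ s * L := by gcongr
        have d2 : (k + 1 : ℝ) * 1 ≤ (k + 1) * ((k + 1) * L) := by gcongr
        have d3 : n * θ * L = n * (Real.log x - Real.log k) := by rw [mul_assoc, th1]
        nlinarith)
      push_cast at this
      nlinarith
    · have il2 := inv_le_log (k := k + 1) (by omega)
      have lx : Real.log x ≤ Real.log ((k + 1 : ℕ) : ℝ) :=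
        Real.log_le_log (by linarith) (by push_cast; linarith)
      have := log_upper (n := n) (m := m) (k := k + 1) (t := (k + 2) ^ 2) hm (by omega)
        (by nlinarith) c (by
          generalize Real.log ((((k + 1 : ℕ) : ℝ) + 1) / (k + 1 : ℕ)) = L' at il2
          have d1 : n * Real.log x ≤ n * Real.log ((k + 1 : ℕ) : ℝ) := by gcongr
          generalize Real.log ((k + 1 : ℕ) : ℝ) = z at d1
          push_cast at il2 ⊢
          have d2 : (k + 1 + 1 : ℝ) * 1 ≤ (k + 1 + 1) * ((k + 1 + 1) * L') := by gcongr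
          nlinarith)
      have d' : (n : ℝ) ≤ s + (k + 1) ^ 2 := by exact_mod_cast d.le
      push_cast at this
      nlinarith
  · have c' : (n : ℝ) ≤ (k + 2) ^ 2 := by exact_mod_cast c.le
    have q2 : ((k : ℝ) + 2) ^ 2 ≤ 9 * x ^ 2 := by nlinarith
    have e0 := Real.exp_pos 1
    have u0 : 0 ≤ Real.exp 1 * x / n := by positivity
    have u1 : Real.exp 1 * x / n ≤ Real.exp 1 := by
      rw [div_le_iff₀ n0]
      gcongr
    have u2 : Real.exp (Real.exp 1 * x / n) ≤
        1 + Real.exp 1 * x / n * Real.exp (Real.exp 1) := by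
      have v1 := Real.add_one_le_exp (-(Real.exp 1 * x / n))
      have v2 := Real.exp_le_exp.2 u1
      have v3 : Real.exp (-(Real.exp 1 * x / n)) * Real.exp (Real.exp 1 * x / n) = 1 := by
        rw [← Real.exp_add, neg_add_cancel, Real.exp_zero]
      have v4 := Real.exp_pos (Real.exp 1 * x / n)
      nlinarith
    have u3 : n * (x * Real.exp (Real.exp 1 * x / n)) ≤
        n * x + Real.exp 1 * Real.exp (Real.exp 1) * x ^ 2 := by
      calc _ ≤ n * (x * (1 + Real.exp 1 * x / n * Real.exp (Real.exp 1))) := by gcongr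
        _ = _ := by field_simp
    have u4 : n * x ≤ n * (k + 1) := by gcongr
    have u5 : 0 ≤ n * θ := by positivity
    nlinarith

end Pool.Agent.FS.MidRange6c7
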