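import Pool.Agent.Lib.MP_6c7e5c_co.Sharp

/-! Two-sided bounds for `h n m` through the `n`-th root of `m`. -/

namespace Pool.Agent.FS.MidRange6c7

open Finset Filter Topology Pool.Agent.Lib.MP_6c7e5c_co

lemma count_le_prod (n : ℕ) (w : List (Fin n)) :
    permCount n w ≤ ∏ a : Fin n, (univ.filter fun p : Fin w.length => w.get p = a).card := by
  rw [← Fintype.card_piFinset]
  unfold permCount
  refine Finset.card_le_card_of_surjOn (fun g : Fin n → Fin w.length => Tuple.sort g) ?_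
  intro π hπ
  have hπ' : (List.ofFn π).Sublist w := by simpa using hπ
  obtain ⟨f, hf⟩ := List.sublist_iff_exists_fin_orderEmbedding_get_eq.1 hπ'
  let F : Fin n → Fin w.length := fun i => f ⟨i, by simp⟩
  have F1 : StrictMono F := fun i j hij => f.strictMono hij
  have F2 : ∀ i, w.get (F i) = π i := fun i => by
    simp only [F]
    rw [← hf]
    simp
  refine ⟨fun a => F (π.symm a), ?_, ?_⟩
  · simp only [Finset.mem_coe, Fintype.mem_piFinset, mem_filter, mem_univ, true_and]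
    intro a
    rw [F2]
    simp
  · symm
    refine Tuple.eq_sort_iff.2 ⟨?_, ?_⟩
    · intro i j hij
      simpa using F1.monotone hij
    · intro i j hij h
      simp only [Equiv.symm_apply_apply] at h
      exact absurd h (F1 hij).ne

lemma root_pow {n : ℕ} (hn : 1 ≤ n) (m : ℕ) : ((m : ℝ) ^ (1 / (n : ℝ))) ^ n = m := by
  rw [one_div]
  exact Real.rpow_inv_natCast_pow m.cast_nonneg (by omega)

lemma length_ge {n m : ℕ} (hn : 1 ≤ n) (w : List (Fin n)) (hw : m ≤ permCount n w) :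
    (n : ℝ) * (m : ℝ) ^ (1 / (n : ℝ)) ≤ w.length := by
  have n0 : (0 : ℝ) < n := by exact_mod_cast hn
  set c : Fin n → ℕ := fun a => (univ.filter fun p : Fin w.length => w.get p = a).card with hc
  have h1 : (m : ℝ) ≤ ∏ a, (c a : ℝ) := by exact_mod_cast hw.trans (count_le_prod n w)
  have h2 : ∑ a, c a = w.length := by
    rw [← Finset.card_eq_sum_card_fiberwise (f := fun p : Fin w.length => w.get p) (s := univ)
      (t := univ) (by simp)]
    simp
  have h3 := Real.geom_mean_le_arith_mean_weighted univ (fun _ : Fin n => 1 / (n : ℝ))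
    (fun a => (c a : ℝ)) (fun _ _ => by positivity) (by simp [n0.ne']) (fun _ _ => by positivity)
  rw [Real.finsetProd_rpow _ _ (fun _ _ => by positivity), ← Finset.mul_sum, ← Nat.cast_sum,
    h2] at h3
  have h4 := (Real.rpow_le_rpow m.cast_nonneg h1 (show 0 ≤ 1 / (n : ℝ) by positivity)).trans h3
  calc _ ≤ (n : ℝ) * (1 / n * w.length) := by gcongr
    _ = _ := by field_simp

lemma h_ge {n m : ℕ} (hn : 1 ≤ n) (hm : 1 ≤ m) (hmn : m ≤ n.factorial) :
    (n : ℝ) * (m : ℝ) ^ (1 / (n : ℝ)) ≤ h n m := by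
  obtain ⟨w, hw1, hw2⟩ := (upper hn hm hmn).1
  rw [← hw1]
  exact length_ge hn w hw2

lemma pow_le_fact (k : ℕ) : ((k : ℝ) / Real.exp 1) ^ k ≤ k.factorial := by
  have := Real.pow_div_factorial_le_exp (k : ℝ) k.cast_nonneg k
  rw [div_le_iff₀ (by exact_mod_cast k.factorial_pos), ← Real.exp_one_pow] at this
  rwa [div_pow, div_le_iff₀' (by positivity)]

lemma h_le {n m : ℕ} (hn : 1 ≤ n) (hm : 1 ≤ m) (hmn : m ≤ n.factorial) :
    (h n m : ℝ) ≤ n * (1 + (m : ℝ) ^ (1 / (n : ℝ)) *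
      Real.exp (Real.exp 1 * (m : ℝ) ^ (1 / (n : ℝ)) / n)) := by
  classical
  have n0 : (0 : ℝ) < n := by exact_mod_cast hn
  have hx := root_pow hn m
  have x0 : 0 ≤ (m : ℝ) ^ (1 / (n : ℝ)) := by positivity
  generalize (m : ℝ) ^ (1 / (n : ℝ)) = x at hx x0
  have ex : ∃ k, m ≤ k.factorial * k ^ (n - k) := ⟨n, by simpa using hmn⟩
  have k1 := Nat.find_spec ex
  have k2 : Nat.find ex ≤ n := Nat.find_min' ex (by simpa using hmn)
  have k3 : ∀ j, j < Nat.find ex → j.factorial * j ^ (n - j) < m :=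
    fun j hj => not_le.1 (Nat.find_min ex hj)
  generalize Nat.find ex = k at k1 k2 k3
  obtain ⟨j, rfl⟩ : ∃ j, k = j + 1 := by
    refine ⟨k - 1, ?_⟩
    rcases Nat.eq_zero_or_pos k with rfl | hk
    · rw [Nat.sub_zero, Nat.zero_pow hn] at k1
      omega
    · omega
  have a1 : h n m ≤ (j + 1) * n := by
    obtain ⟨r, rfl⟩ := Nat.exists_eq_add_of_le k2
    rw [Nat.add_sub_cancel_left] at k1
    exact Nat.sInf_le ⟨cyc _ (j + 1) hn, cyc_length _ _ _, k1.trans (le_permCount hn)⟩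
  have jn : (j : ℝ) ≤ n := by exact_mod_cast (by omega : j ≤ n)
  have a2 : (j : ℝ) ≤ x * Real.exp (j / n) := by
    refine le_of_pow_le_pow_left₀ (n := n) (by omega) (by positivity) ?_
    rw [mul_pow, hx, ← Real.exp_nat_mul, mul_div_cancel₀ _ n0.ne']
    have b1 : ((j.factorial * j ^ (n - j) : ℕ) : ℝ) ≤ m := by
      exact_mod_cast (k3 j (by omega)).le
    have b2 := pow_le_fact j
    rw [div_pow, Real.exp_one_pow, div_le_iff₀ (by positivity)] at b2
    push_cast at b1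
    calc (j : ℝ) ^ n = j ^ j * j ^ (n - j) := by
          rw [← pow_add]
          congr 1
          omega
      _ ≤ (j.factorial * Real.exp j) * j ^ (n - j) := by gcongr
      _ = (j.factorial * j ^ (n - j)) * Real.exp j := by ring
      _ ≤ _ := by gcongr
  have a3 : (j : ℝ) ≤ Real.exp 1 * x := by
    refine a2.trans ?_
    rw [mul_comm]
    gcongr
    rwa [div_le_one n0]
  have a4 : (j : ℝ) ≤ x * Real.exp (Real.exp 1 * x / n) := by
    refine a2.trans ?_
    gcongr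
  have a5 : (h n m : ℝ) ≤ (j + 1) * n := by exact_mod_cast a1
  nlinarith

lemma ell_ge {n : ℕ} (hn : 1 ≤ n) (m : ℕ) :
    (n : ℝ) * (m : ℝ) ^ (1 / (n : ℝ)) ≤ Real.exp 1 * ell m n := by
  have n0 : (0 : ℝ) < n := by exact_mod_cast hn
  have e0 := Real.exp_pos 1
  have f0 : (0 : ℝ) < n.factorial := by exact_mod_cast n.factorial_pos
  refine le_of_pow_le_pow_left₀ (n := n) (by omega) (by positivity) ?_
  rw [mul_pow, root_pow hn, mul_pow]
  have a1 : ((ell m n).choose n : ℝ) ≤ (ell m n : ℝ) ^ n / n.factorial :=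
    Nat.choose_le_pow_div n _
  have a2 : (m : ℝ) ≤ (ell m n).choose n := by exact_mod_cast ell_spec m hn
  have a3 := pow_le_fact n
  rw [div_pow, div_le_iff₀ (by positivity)] at a3
  have a4 := a2.trans a1
  rw [le_div_iff₀ f0] at a4
  calc (n : ℝ) ^ n * m ≤ (n.factorial * Real.exp 1 ^ n) * m := by gcongr
    _ = Real.exp 1 ^ n * (m * n.factorial) := by ring
    _ ≤ _ := by gcongr

lemma ell_le' {n : ℕ} (hn : 1 ≤ n) (m : ℕ) :
    (ell m n : ℝ) ≤ n + 1 + (m : ℝ) ^ (1 / (n : ℝ)) *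
      (Real.exp (1 / n) * (n : ℝ) ^ (1 / (n : ℝ)) * (n / Real.exp 1)) := by
  have n0 : (0 : ℝ) < n := by exact_mod_cast hn
  have e0 := Real.exp_pos 1
  have f0 : (0 : ℝ) < n.factorial := by exact_mod_cast n.factorial_pos
  set y := (m : ℝ) ^ (1 / (n : ℝ)) *
      (Real.exp (1 / n) * (n : ℝ) ^ (1 / (n : ℝ)) * (n / Real.exp 1)) with hy
  have y0 : 0 ≤ y := by positivity
  have a3 : (m : ℝ) * n.factorial ≤ y ^ n := by
    rw [hy, mul_pow, mul_pow, mul_pow, root_pow hn, root_pow hn, ← Real.exp_nat_mul,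
      mul_one_div_cancel n0.ne']
    gcongr
    obtain ⟨k, rfl⟩ : ∃ k, n = k + 1 := ⟨n - 1, by omega⟩
    push_cast
    exact factorial_le k
  have h3 : m ≤ (n + ⌈y⌉₊).choose n := by
    have a1 := Nat.pow_le_choose (α := ℝ) n (n + ⌈y⌉₊)
    have a2 : y ≤ (n + ⌈y⌉₊ + 1 - n : ℕ) :=
      (Nat.le_ceil y).trans (by exact_mod_cast (by omega))
    have a4 : (m : ℝ) ≤ (n + ⌈y⌉₊).choose n := by
      refine le_trans ?_ a1
      rw [le_div_iff₀ f0]
      exact a3.trans (pow_le_pow_left₀ y0 a2 n)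
    exact_mod_cast a4
  have h4 : (ell m n : ℝ) ≤ (n + ⌈y⌉₊ : ℕ) := by
    exact_mod_cast Nat.sInf_le (s := {l : ℕ | m ≤ l.choose n}) h3
  push_cast at h4
  linarith [Nat.ceil_lt_add_one y0]

theorem ratio (n m : ℕ → ℕ) (hn : ∀ i, 1 ≤ n i) (hm : ∀ i, 1 ≤ m i)
    (hmn : ∀ i, m i ≤ (n i).factorial)
    (h1 : Tendsto (fun i => (m i : ℝ) ^ (1 / (n i : ℝ))) atTop atTop)
    (h2 : Tendsto (fun i => (m i : ℝ) ^ (1 / (n i : ℝ)) / n i) atTop (𝓝 0)) :
    Tendsto (fun i => (h (n i) (m i) : ℝ) / ell (m i) (n i)) atTop (𝓝 (Real.exp 1)) := by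
  have e0 := Real.exp_pos 1
  set x : ℕ → ℝ := fun i => (m i : ℝ) ^ (1 / (n i : ℝ)) with hx
  have n0 : ∀ i, (1 : ℝ) ≤ n i := fun i => by exact_mod_cast hn i
  have x0 : ∀ i, 0 < x i := fun i => by
    have : (0 : ℝ) < m i := by exact_mod_cast hm i
    simp only [hx]
    positivity
  have t1 : Tendsto (fun i => (n i : ℝ)) atTop atTop := by
    refine tendsto_atTop_mono' _ ?_ h1
    filter_upwards [h2.eventually (ge_mem_nhds one_pos)] with i hi
    rwa [div_le_one (by linarith [n0 i])] at hi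
  have t2 : Tendsto (fun i => (x i)⁻¹) atTop (𝓝 0) := h1.inv_tendsto_atTop
  have t3 : Tendsto (fun i => Real.exp (Real.exp 1 * (x i / n i))) atTop (𝓝 1) := by
    have := (Real.continuous_exp.tendsto _).comp (h2.const_mul (Real.exp 1))
    rw [mul_zero, Real.exp_zero] at this
    exact this
  have t4 : Tendsto (fun i => Real.exp (1 / (n i : ℝ))) atTop (𝓝 1) := by
    have := (Real.continuous_exp.tendsto _).comp t1.inv_tendsto_atTop
    simpa [Function.comp_def] using this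
  have t5 : Tendsto (fun i => (n i : ℝ) ^ (1 / (n i : ℝ))) atTop (𝓝 1) :=
    tendsto_rpow_div.comp t1
  have u1 : Tendsto (fun i => Real.exp 1 * ((x i)⁻¹ + Real.exp (Real.exp 1 * (x i / n i))))
      atTop (𝓝 (Real.exp 1)) := by
    simpa using (t2.add t3).const_mul (Real.exp 1)
  have u2 : Tendsto (fun i => (2 * (x i)⁻¹ +
      Real.exp (1 / (n i : ℝ)) * (n i : ℝ) ^ (1 / (n i : ℝ)) / Real.exp 1)⁻¹)
      atTop (𝓝 (Real.exp 1)) := by
    have := (((t2.const_mul 2).add ((t4.mul t5).div_const (Real.exp 1)))).inv₀ (by positivity)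
    simpa using this
  refine tendsto_of_tendsto_of_tendsto_of_le_of_le u2 u1 (fun i => ?_) (fun i => ?_)
  · have a1 := h_ge (hn i) (hm i) (hmn i)
    have a2 := ell_le' (hn i) (m i)
    have a3 := ell_ge (hn i) (m i)
    have a4 := x0 i
    have a5 := n0 i
    simp only [hx] at a4 ⊢
    have r0 : 0 < Real.exp (1 / (n i : ℝ)) * (n i : ℝ) ^ (1 / (n i : ℝ)) := by positivity
    generalize Real.exp (1 / (n i : ℝ)) * (n i : ℝ) ^ (1 / (n i : ℝ)) = r at a2 r0
    generalize (m i : ℝ) ^ (1 / (n i : ℝ)) = X at a1 a2 a3 a4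
    have l0 : (0 : ℝ) < ell (m i) (n i) := by
      have : 0 < Real.exp 1 * ell (m i) (n i) := lt_of_lt_of_le (by positivity) a3
      exact (mul_pos_iff_of_pos_left e0).1 this
    rw [le_div_iff₀ l0, inv_mul_le_iff₀ (by positivity)]
    calc (ell (m i) (n i) : ℝ) ≤ 2 * n i + X * (r * (n i / Real.exp 1)) := by linarith
      _ = (2 * X⁻¹ + r / Real.exp 1) * (n i * X) := by field_simp
      _ ≤ _ := by gcongr
  · have a1 := h_le (hn i) (hm i) (hmn i)
    have a3 := ell_ge (hn i) (m i)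
    have a4 := x0 i
    have a5 := n0 i
    simp only [hx] at a4 ⊢
    rw [mul_div_assoc] at a1
    generalize (m i : ℝ) ^ (1 / (n i : ℝ)) = X at a1 a3 a4
    have l0 : (0 : ℝ) < ell (m i) (n i) := by
      have : 0 < Real.exp 1 * ell (m i) (n i) := lt_of_lt_of_le (by positivity) a3
      exact (mul_pos_iff_of_pos_left e0).1 this
    rw [div_le_iff₀ l0]
    calc (h (n i) (m i) : ℝ) ≤ _ := a1
      _ = (X⁻¹ + Real.exp (Real.exp 1 * (X / n i))) * (n i * X) := by field_simp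
      _ ≤ (X⁻¹ + Real.exp (Real.exp 1 * (X / n i))) * (Real.exp 1 * ell (m i) (n i)) := by gcongr
      _ = _ := by ring

end Pool.Agent.FS.MidRange6c7
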