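import Pool.Agent.FS.MidRange6c7.Main

/-! Words of length `k n + t`: the number of permutations they can contain. -/

namespace Pool.Agent.FS.MidRange6c7

open Finset Filter Topology Pool.Agent.Lib.MP_6c7e5c_co

lemma nat_le_geom {k : ℕ} (hk : 1 ≤ k) (c : ℕ) :
    (c : ℝ) * (((k : ℝ) + 1) / k) ^ k ≤ k * (((k : ℝ) + 1) / k) ^ c := by
  have k0 : (0 : ℝ) < k := by exact_mod_cast hk
  set r : ℝ := ((k : ℝ) + 1) / k with hr
  have r0 : 0 < r := by positivity
  rcases le_total k c with h | h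
  · obtain ⟨d, rfl⟩ := Nat.exists_eq_add_of_le h
    have a1 : 1 + (d : ℝ) * (1 / k) ≤ (1 + 1 / k) ^ d :=
      one_add_mul_le_pow (le_trans (by norm_num) (show (0 : ℝ) ≤ 1 / k by positivity)) d
    have a2 : (1 : ℝ) + 1 / k = r := by
      rw [hr]
      field_simp
    rw [a2] at a1
    rw [pow_add, Nat.cast_add]
    calc ((k : ℝ) + d) * r ^ k = k * (r ^ k * (1 + (d : ℝ) * (1 / k))) := by field_simp
      _ ≤ _ := by gcongr
  · obtain ⟨d, hd⟩ := Nat.exists_eq_add_of_le h
    have a0 : 1 / ((k : ℝ) + 1) ≤ 1 := by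
      rw [div_le_one (by positivity)]
      linarith
    have a1 : 1 + (d : ℝ) * (-(1 / (k + 1))) ≤ (1 + -(1 / (k + 1))) ^ d :=
      one_add_mul_le_pow (by linarith) d
    have a2 : (1 : ℝ) + -(1 / (k + 1)) = r⁻¹ := by
      rw [hr]
      field_simp
      ring
    rw [a2, inv_pow] at a1
    have a3 : (k : ℝ) = c + d := by exact_mod_cast hd
    have a4 : (c : ℝ) ≤ k * (1 + (d : ℝ) * (-(1 / (k + 1)))) := by
      have : (k : ℝ) * (1 / (k + 1)) ≤ 1 := by
        rw [mul_one_div, div_le_one (by positivity)]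
        linarith
      nlinarith [d.cast_nonneg (α := ℝ)]
    have a5 : r ^ k = r ^ c * r ^ d := by rw [← pow_add, ← hd]
    rw [a5]
    calc (c : ℝ) * (r ^ c * r ^ d) ≤ (k * (r ^ d)⁻¹) * (r ^ c * r ^ d) := by
          gcongr
          exact a4.trans (by gcongr)
      _ = _ := by field_simp

lemma count_le_geom {n k : ℕ} (hk : 1 ≤ k) (w : List (Fin n)) :
    (permCount n w : ℝ) * (((k : ℝ) + 1) / k) ^ (k * n) ≤
      (k : ℝ) ^ n * (((k : ℝ) + 1) / k) ^ w.length := by
  set c : Fin n → ℕ := fun a => (univ.filter fun p : Fin w.length => w.get p = a).card with hc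
  have h1 : (permCount n w : ℝ) ≤ ∏ a, (c a : ℝ) := by exact_mod_cast count_le_prod n w
  have h2 : ∑ a, c a = w.length := by
    rw [← Finset.card_eq_sum_card_fiberwise (f := fun p : Fin w.length => w.get p) (s := univ)
      (t := univ) (by simp)]
    simp
  have h3 : ∏ a, ((c a : ℝ) * (((k : ℝ) + 1) / k) ^ k) ≤
      ∏ a, ((k : ℝ) * (((k : ℝ) + 1) / k) ^ c a) :=
    Finset.prod_le_prod (fun _ _ => by positivity) fun a _ => nat_le_geom hk (c a)
  rw [Finset.prod_mul_distrib, Finset.prod_mul_distrib, Finset.prod_const, Finset.prod_const,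
    Finset.prod_pow_eq_pow_sum, h2, Finset.card_univ, Fintype.card_fin, ← pow_mul] at h3
  exact le_trans (by gcongr) h3

lemma le_of_h_le {n m k t : ℕ} (hn : 1 ≤ n) (hm : 1 ≤ m) (hmn : m ≤ n.factorial) (hk : 1 ≤ k)
    (ht : t ≤ n) (hh : h n m ≤ k * n + t) : m ≤ (k + 1) ^ t * k ^ (n - t) := by
  have k0 : (0 : ℝ) < k := by exact_mod_cast hk
  obtain ⟨w, hw1, hw2⟩ := (upper hn hm hmn).1
  have a1 := count_le_geom hk w
  have r1 : (1 : ℝ) ≤ ((k : ℝ) + 1) / k := by
    rw [le_div_iff₀ k0]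
    linarith
  have a2 : (((k : ℝ) + 1) / k) ^ w.length ≤ (((k : ℝ) + 1) / k) ^ (k * n + t) :=
    pow_le_pow_right₀ r1 (by omega)
  have a3 : (m : ℝ) ≤ permCount n w := by exact_mod_cast hw2
  have a4 : (m : ℝ) ≤ (k : ℝ) ^ n * (((k : ℝ) + 1) / k) ^ t := by
    refine le_of_mul_le_mul_right ?_ (show 0 < (((k : ℝ) + 1) / k) ^ (k * n) by positivity)
    calc _ ≤ (permCount n w : ℝ) * (((k : ℝ) + 1) / k) ^ (k * n) := by gcongr
      _ ≤ _ := a1
      _ ≤ (k : ℝ) ^ n * (((k : ℝ) + 1) / k) ^ (k * n + t) := by gcongr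
      _ = _ := by ring
  obtain ⟨s, rfl⟩ := Nat.exists_eq_add_of_le ht
  rw [Nat.add_sub_cancel_left]
  have a5 : (k : ℝ) ^ (t + s) * (((k : ℝ) + 1) / k) ^ t = (k + 1) ^ t * k ^ s := by
    rw [div_pow, pow_add]
    field_simp
  rw [a5] at a4
  exact_mod_cast a4

/-- The first `L` letters of the periodic word. -/
def per (n L : ℕ) (hn : 0 < n) : List (Fin n) :=
  (List.range L).map (fun j => ⟨j % n, Nat.mod_lt _ hn⟩)

lemma sublist_per {n k L : ℕ} (hn : 0 < n) (f : Fin n → Fin k) (π : Equiv.Perm (Fin n))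
    (hmono : Monotone (f ∘ π)) (htie : ∀ i j, i < j → f (π i) = f (π j) → π i < π j)
    (hL : ∀ a, (f a : ℕ) * n + (a : ℕ) < L) : (List.ofFn π).Sublist (per n L hn) := by
  let idx : Fin n → ℕ := fun i => (f (π i) : ℕ) * n + (π i : ℕ)
  have hidx : StrictMono idx := by
    intro i j hij
    have h1 : f (π i) ≤ f (π j) := hmono hij.le
    rcases h1.lt_or_eq with h2 | h2
    · have h3 : (f (π i) : ℕ) + 1 ≤ (f (π j) : ℕ) := h2
      have h4 : (π i : ℕ) < n := (π i).2
      have h5 : ((f (π i) : ℕ) + 1) * n ≤ (f (π j) : ℕ) * n := Nat.mul_le_mul_right _ h3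
      simp only [idx]
      nlinarith
    · have h3 : (π i : ℕ) < (π j : ℕ) := htie i j hij h2
      simp only [idx, h2]
      omega
  have hsub : (List.ofFn idx).Sublist (List.range L) := by
    apply List.sublist_of_subperm_of_sortedLE
    · apply List.subperm_of_subset
      · exact List.nodup_ofFn.2 hidx.injective
      · intro x hx
        rw [List.mem_ofFn] at hx
        obtain ⟨i, rfl⟩ := hx
        rw [List.mem_range]
        exact hL (π i)
    · exact List.sortedLE_ofFn_iff.2 hidx.monotone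
    · exact List.sortedLT_range _ |>.sortedLE
  have := hsub.map (fun j => (⟨j % n, Nat.mod_lt _ hn⟩ : Fin n))
  rw [List.map_ofFn] at this
  have he : ((fun j => (⟨j % n, Nat.mod_lt _ hn⟩ : Fin n)) ∘ idx) = π := by
    funext i
    apply Fin.ext
    simp only [idx, Function.comp]
    rw [Nat.mul_add_mod_self_right, Nat.mod_eq_of_lt (π i).2]
  rw [he] at this
  exact this

lemma sort_inj {k j : ℕ} : Function.Injective
    fun p : Equiv.Perm (Fin k) × (Fin j → Fin k) => Tuple.sort (Fin.append p.1 p.2) := by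
  rintro ⟨σ, g⟩ ⟨σ', g'⟩ e
  have c : ∀ (σ : Equiv.Perm (Fin k)) (v : Fin k),
      (univ.filter fun y => σ y ≤ v).card = v + 1 := fun σ v => by
    rw [← Fin.card_Iic]
    exact card_bijective σ σ.bijective (by simp)
  have k : ∀ x, Fin.append σ g x = Fin.append σ' g' x := fun x => by
    have k1 := c σ (Fin.append σ g x)
    have k2 := c σ' (Fin.append σ' g' x)
    simp only [← sort_le_iff] at k1 k2
    dsimp only at e
    rw [e, k2] at k1
    exact Fin.ext (by omega)
  refine Prod.ext (Equiv.ext fun y => ?_) (funext fun y => ?_)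
  · simpa using k (Fin.castAdd j y)
  · simpa using k (Fin.natAdd _ y)

lemma le_count_per (k a b : ℕ) (hn : 0 < k + 1 + (a + b)) :
    (k + 1).factorial * ((k + 1) ^ a * k ^ b) ≤
      permCount (k + 1 + (a + b))
        (per (k + 1 + (a + b)) (k * (k + 1 + (a + b)) + (k + 1 + a)) hn) := by
  have := card_le_card_of_injOn (s := univ)
    (t := univ.filter fun π : Equiv.Perm (Fin (k + 1 + (a + b))) => (List.ofFn π).Sublist
      (per (k + 1 + (a + b)) (k * (k + 1 + (a + b)) + (k + 1 + a)) hn))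
    (fun p : Equiv.Perm (Fin (k + 1)) × (Fin a → Fin (k + 1)) × (Fin b → Fin k) =>
      Tuple.sort (Fin.append p.1 (Fin.append p.2.1 fun i => (p.2.2 i).castSucc)))
    (fun p _ => by
      have := (Tuple.eq_sort_iff
        (f := Fin.append p.1 (Fin.append p.2.1 fun i => (p.2.2 i).castSucc))).1 rfl
      simp only [Finset.coe_filter, mem_univ, true_and, Set.mem_ofPred_eq]
      refine sublist_per hn _ _ this.1 this.2 fun x => ?_
      refine Fin.addCases (fun y => ?_) (fun y => ?_) x
      · rw [Fin.append_left]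
        have h1 : ((p.1 y : Fin (k + 1)) : ℕ) * (k + 1 + (a + b)) ≤ k * (k + 1 + (a + b)) :=
          Nat.mul_le_mul_right _ (Nat.lt_succ_iff.1 (p.1 y).2)
        have h2 := y.2
        simp only [Fin.val_castAdd]
        omega
      · rw [Fin.append_right]
        refine Fin.addCases (fun z => ?_) (fun z => ?_) y
        · rw [Fin.append_left]
          have h1 : ((p.2.1 z : Fin (k + 1)) : ℕ) * (k + 1 + (a + b)) ≤ k * (k + 1 + (a + b)) :=
            Nat.mul_le_mul_right _ (Nat.lt_succ_iff.1 (p.2.1 z).2)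
          have h2 := z.2
          simp only [Fin.val_natAdd, Fin.val_castAdd]
          omega
        · rw [Fin.append_right]
          have h1 : (((p.2.2 z : Fin k) : ℕ) + 1) * (k + 1 + (a + b)) ≤ k * (k + 1 + (a + b)) :=
            Nat.mul_le_mul_right _ (p.2.2 z).2
          have h2 := z.2
          rw [add_mul] at h1
          simp only [Fin.val_natAdd, Fin.val_castSucc]
          omega)
    (by
      rintro ⟨σ, g, u⟩ - ⟨σ', g', u'⟩ - e
      have e1 := sort_inj (a₁ := (σ, Fin.append g fun i => (u i).castSucc))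
        (a₂ := (σ', Fin.append g' fun i => (u' i).castSucc)) e
      obtain ⟨e2, e3⟩ := Prod.mk.inj e1
      refine Prod.ext e2 (Prod.ext (funext fun y => ?_) (funext fun y => ?_))
      · simpa using congrFun e3 (Fin.castAdd b y)
      · simpa using congrFun e3 (Fin.natAdd a y))
  simpa [permCount, Fintype.card_perm] using this

lemma h_le_of_le {n m k t : ℕ} (hk : 1 ≤ k) (hkn : k < n) (ht : t ≤ n)
    (hm : (m : ℝ) * Real.exp (k + 1) ≤ (k + 1) ^ t * k ^ (n - t)) : h n m ≤ k * n + t := by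
  have k0 : (0 : ℝ) < k := by exact_mod_cast hk
  have e0 := Real.exp_pos 1
  rcases le_or_gt (k + 1) t with c | c
  · obtain ⟨a, rfl⟩ := Nat.exists_eq_add_of_le c
    obtain ⟨b, rfl⟩ := Nat.exists_eq_add_of_le ht
    rw [Nat.add_sub_cancel_left] at hm
    have a1 := pow_le_fact (k + 1)
    rw [div_pow, Real.exp_one_pow, div_le_iff₀ (by positivity)] at a1
    push_cast at a1
    have a2 : (m : ℝ) ≤ (k + 1).factorial * ((k + 1) ^ a * k ^ b) := by
      refine le_of_mul_le_mul_right ?_ (Real.exp_pos (k + 1))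
      calc _ ≤ _ := hm
        _ = ((k : ℝ) + 1) ^ (k + 1) * ((k + 1) ^ a * k ^ b) := by ring
        _ ≤ ((k + 1).factorial * Real.exp (k + 1)) * ((k + 1) ^ a * k ^ b) := by gcongr
        _ = _ := by ring
    have a3 : m ≤ (k + 1).factorial * ((k + 1) ^ a * k ^ b) := by exact_mod_cast a2
    rw [add_assoc (k + 1) a b]
    exact Nat.sInf_le ⟨per _ _ (by omega), by simp [per], a3.trans (le_count_per k a b (by omega))⟩
  · obtain ⟨j, rfl⟩ := Nat.exists_eq_add_of_le hkn.le
    have a1 := pow_le_fact k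
    rw [div_pow, Real.exp_one_pow, div_le_iff₀ (by positivity)] at a1
    have r1 : (1 : ℝ) ≤ 1 + (k : ℝ)⁻¹ := by
      have : (0 : ℝ) ≤ (k : ℝ)⁻¹ := by positivity
      linarith
    have a4 : ((k : ℝ) + 1) ^ t ≤ Real.exp 1 * k ^ t := by
      calc ((k : ℝ) + 1) ^ t = (1 + (k : ℝ)⁻¹) ^ t * k ^ t := by
            rw [← mul_pow]
            congr 1
            field_simp
        _ ≤ (1 + (k : ℝ)⁻¹) ^ k * k ^ t := by
            gcongr
            omega
        _ ≤ _ := by
            gcongr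
            exact Real.one_add_inv_pow_le_exp
    have a2 : (m : ℝ) ≤ k.factorial * k ^ j := by
      refine le_of_mul_le_mul_right ?_ (Real.exp_pos (k + 1))
      calc _ ≤ _ := hm
        _ ≤ (Real.exp 1 * k ^ t) * k ^ (k + j - t) := by gcongr
        _ = Real.exp 1 * (k ^ k * k ^ j) := by
            rw [mul_assoc, ← pow_add, ← pow_add]
            congr 2
            omega
        _ ≤ Real.exp 1 * ((k.factorial * Real.exp k) * k ^ j) := by gcongr
        _ = _ := by
            rw [Real.exp_add]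
            ring
    have a3 : m ≤ k.factorial * k ^ j := by exact_mod_cast a2
    refine le_trans ?_ (Nat.le_add_right _ t)
    exact Nat.sInf_le ⟨cyc _ k (by omega), cyc_length _ _ _, a3.trans (le_permCount (by omega))⟩

theorem bounded (c : ℝ) (hc : 1 ≤ c) (n m : ℕ → ℕ) (hn : ∀ i, 1 ≤ n i) (hm : ∀ i, 1 ≤ m i)
    (hmn : ∀ i, m i ≤ (n i).factorial) (h1 : Tendsto n atTop atTop)
    (h2 : Tendsto (fun i => (m i : ℝ) ^ (1 / (n i : ℝ))) atTop (𝓝 c)) :
    Tendsto (fun i => (h (n i) (m i) : ℝ) / n i) atTop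
      (𝓝 (⌊c⌋₊ + Real.log (c / ⌊c⌋₊) / Real.log (1 + 1 / ⌊c⌋₊))) := by
  have hk : 1 ≤ ⌊c⌋₊ := Nat.le_floor (by exact_mod_cast hc)
  have c1 : (⌊c⌋₊ : ℝ) ≤ c := Nat.floor_le (by linarith)
  have c2 : c < ⌊c⌋₊ + 1 := Nat.lt_floor_add_one c
  generalize ⌊c⌋₊ = k at hk c1 c2
  have k0 : (0 : ℝ) < k := by exact_mod_cast hk
  have er : (1 : ℝ) + 1 / k = (k + 1) / k := by field_simp
  rw [er]
  have r1 : (1 : ℝ) < (k + 1) / k := by
    rw [lt_div_iff₀ k0]
    linarith
  have l0 : 0 < Real.log (((k : ℝ) + 1) / k) := Real.log_pos r1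
  have th0 : 0 ≤ Real.log (c / k) / Real.log (((k : ℝ) + 1) / k) :=
    div_nonneg (Real.log_nonneg (by rwa [le_div_iff₀ k0, one_mul])) l0.le
  have th1 : Real.log (c / k) / Real.log (((k : ℝ) + 1) / k) < 1 := by
    rw [div_lt_one l0]
    exact Real.log_lt_log (by positivity) (by gcongr)
  have n0 : ∀ i, (0 : ℝ) < n i := fun i => by exact_mod_cast hn i
  have m0 : ∀ i, (0 : ℝ) < m i := fun i => by exact_mod_cast hm i
  have lx : ∀ i, Real.log ((m i : ℝ) ^ (1 / (n i : ℝ)) / k) =
      Real.log (m i) / n i - Real.log k := fun i => by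
    rw [Real.log_div (Real.rpow_pos_of_pos (m0 i) _).ne' k0.ne', Real.log_rpow (m0 i)]
    ring
  have t0 : Tendsto (fun i => (n i : ℝ)⁻¹) atTop (𝓝 0) :=
    (tendsto_natCast_atTop_atTop.comp h1).inv_tendsto_atTop
  have t1 : Tendsto (fun i => (Real.log (m i) / n i - Real.log k) / Real.log (((k : ℝ) + 1) / k))
      atTop (𝓝 (Real.log (c / k) / Real.log (((k : ℝ) + 1) / k))) := by
    refine Tendsto.div_const ?_ _
    simp only [← lx]
    exact (h2.div_const _).log (by positivity)
  generalize hL : Real.log (((k : ℝ) + 1) / k) = L at l0 th0 th1 t1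
  have t2 : Tendsto (fun i => max ((Real.log (m i) / n i - Real.log k) / L +
      (k + 1) / L * (n i : ℝ)⁻¹) 0 + (n i : ℝ)⁻¹) atTop (𝓝 (Real.log (c / k) / L)) := by
    have := ((t1.add (t0.const_mul ((k + 1) / L))).max (tendsto_const_nhds (x := 0))).add t0
    rwa [mul_zero, add_zero, add_zero, max_eq_left th0] at this
  refine tendsto_of_tendsto_of_tendsto_of_le_of_le' (t1.const_add (k : ℝ)) (t2.const_add (k : ℝ))
    (Eventually.of_forall fun i => ?_) ?_
  · obtain ⟨w, hw1, hw2⟩ := (upper (hn i) (hm i) (hmn i)).1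
    have a1 := count_le_geom hk w
    have a2 : (m i : ℝ) ≤ permCount (n i) w := by exact_mod_cast hw2
    have a3 : (m i : ℝ) * (((k : ℝ) + 1) / k) ^ (k * n i) ≤
        (k : ℝ) ^ n i * (((k : ℝ) + 1) / k) ^ w.length := le_trans (by gcongr) a1
    have a5 := m0 i
    have a4 := Real.log_le_log (by positivity) a3
    rw [Real.log_mul (by positivity) (by positivity), Real.log_mul (by positivity) (by positivity),
      Real.log_pow, Real.log_pow, Real.log_pow, hL, hw1] at a4
    push_cast at a4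
    have a6 := n0 i
    rw [le_div_iff₀ a6]
    refine le_of_mul_le_mul_right ?_ l0
    calc _ = Real.log (m i) + k * n i * L - n i * Real.log k := by
          field_simp
          ring
      _ ≤ _ := by linarith
  · filter_upwards [t2.eventually (ge_mem_nhds th1), h1.eventually (eventually_gt_atTop k)]
      with i hi hkn
    have a6 := n0 i
    have a5 := m0 i
    set y := (Real.log (m i) / n i - Real.log k) / L + (k + 1) / L * (n i : ℝ)⁻¹ with hy
    have b0 : 0 ≤ n i * max y 0 := by positivity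
    have b1 := Nat.le_ceil (n i * max y 0)
    have b2 := Nat.ceil_lt_add_one b0
    generalize ⌈n i * max y 0⌉₊ = t at b1 b2
    have b3 : (t : ℝ) ≤ n i * (max y 0 + (n i : ℝ)⁻¹) := by
      rw [mul_add, mul_inv_cancel₀ a6.ne']
      exact b2.le
    have b4 : t ≤ n i := by
      have : (t : ℝ) ≤ n i := b3.trans (by nlinarith)
      exact_mod_cast this
    have b5 : Real.log (m i) + (k + 1) ≤ n i * Real.log k + t * L := by
      have d1 : n i * y ≤ t := le_trans (by gcongr; exact le_max_left _ _) b1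
      have d2 : n i * y * L = Real.log (m i) - n i * Real.log k + (k + 1) := by
        rw [hy]
        field_simp
      nlinarith
    have b6 : (m i : ℝ) * Real.exp (k + 1) ≤ (k + 1) ^ t * k ^ (n i - t) := by
      have d1 := Real.exp_le_exp.2 b5
      rw [Real.exp_add, Real.exp_log a5, Real.exp_add (n i * _), Real.exp_nat_mul,
        Real.exp_nat_mul, Real.exp_log k0, ← hL, Real.exp_log (by positivity)] at d1
      refine d1.trans (le_of_eq ?_)
      obtain ⟨s, hs⟩ := Nat.exists_eq_add_of_le b4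
      rw [hs, Nat.add_sub_cancel_left, div_pow, pow_add]
      field_simp
    have b7 : (h (n i) (m i) : ℝ) ≤ k * n i + t := by
      exact_mod_cast h_le_of_le hk hkn b4 b6
    rw [div_le_iff₀ a6]
    nlinarith

end Pool.Agent.FS.MidRange6c7
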